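import Pool.Agent.D0H40.AR.Sector
import Pool.Agent.D0H40.AR.Frob
import Pool.Agent.D0H40.AR.Eig

/-!
# The orders of Artin L-functions at `s = 1/2` as a bias of finite sums over primes

Let `L/ℚ` be a finite Galois extension, `ρ` a representation of `Gal(L/ℚ)` with character `χ`, and let
`L(s, χ)` be its Artin L-function.  By Brauer's theorem it is meromorphic on the whole plane; we use the
continuation to `Re s > 1/2` and to `s = 1/2` only.  (We leave out the Euler factors at `2`, `3` and at the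
ramified primes.  They have no zeros and no poles for `Re s > 0`.)  Let `m` be its order at `s = 1/2` and
`ν` the Frobenius–Schur indicator of `χ`.  For real numbers `k > 1` and `τ` consider the finite sums over
the primes

`S_{k,τ}(X) = ∑_{p ≤ X} exp (-(1 + iτ) (log p)^k / (log X)^(k-1)) Re χ(Frob_p) / √p`,
`W_{k,τ}(X) = ∑_{p ≤ X} exp (-(1 + iτ) (log p)^k / (log X)^(k-1)) log |det (1 - p^(-1/2) ρ(Frob_p))|`.

* `W_{k,τ}(X) / log log X → (1 - 1/k) a` for some `(k, τ)` if and only if `a = m`; and then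
  `W_{k,τ}(X) = (1 - 1/k) m log log X + O(1)` for some `(k, τ)`.
* `S_{k,τ}(X) / log log X → -(1 - 1/k) β` for some `(k, τ)` if and only if `β = m + ν/2`.  Hence the central
  order of every Artin L-function is determined by the bias `β` of the values `Re χ(Frob_p)`, and
  for a given `(k, τ)` the two laws are equivalent.
* For finitely many representations `(k, τ)` can be chosen independently of the representation.
* `(k, τ)` can be used if `L(s, χ) L(s, χ̄)` has no zeros and poles in a sector with vertex `1/2` which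
  contains the closure of `S_{k,τ} = {|arg (s - 1/2) - arctan τ / k| < (π/2)(1 - 1/k)}`; conversely, if one of
  the two laws holds, or only if `|S_{k,τ}(X)| ≤ X^(o(1))`, there are no zeros and no poles in `S_{k,τ}`.
* `L(1/2, χ) ≠ 0, ∞` if and only if the bias is `ν/2`.  If `χ` is orthogonal, unitary or symplectic and
  `L(s, χ)` has no pole at `1/2`, then the statements (ii), (iii) of the problem hold for `χ` if and only if the
  bias is at most `1/2`.  ((iii) says that the order is `0` or `1`, since the root number of a symplectic `χ` is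
  `(-1)^m`; the bias is then `-1/2` times the root number.)

The proof uses Chebotarev's theorem with natural density for the second statement.
-/

set_option autoImplicit false

namespace Pool.Agent.Results.MP_3b6604_nt.CentralOrdersAsBias

open Filter Topology NumberField
open scoped ComplexConjugate

section Defs

variable {L : Type} [Field L] [NumberField L] {d : ℕ}

/-- `p > 3` is a prime which is unramified in `L`. -/
def Good (L : Type) [Field L] [NumberField L] (p : ℕ) : Prop :=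
  p.Prime ∧ 3 < p ∧ ¬ (p : ℤ) ∣ discr L

/-- `σ` is a Frobenius element at `p`: there is a maximal ideal `Q` of `𝓞 L` which contains `p` with
`σ x ≡ x^p` modulo `Q` for all `x ∈ 𝓞 L`. -/
def IsFrobenius (p : ℕ) (σ : Gal(L/ℚ)) : Prop :=
  ∃ Q : Ideal (𝓞 L), Q.IsMaximal ∧ (p : 𝓞 L) ∈ Q ∧ ∀ x : 𝓞 L, σ • x - x ^ p ∈ Q

/-- the Euler factor `det (1 - p^(-s) ρ(Frob_p))⁻¹` of the good primes, and `1` for the other `p` -/
noncomputable def eulerFactor (ρ : Gal(L/ℚ) →* Matrix (Fin d) (Fin d) ℂ) (fr : ℕ → Gal(L/ℚ)) (s : ℂ)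
    (p : ℕ) : ℂ :=
  open Classical in if Good L p then ((1 - (p : ℂ) ^ (-s) • ρ (fr p)).det)⁻¹ else 1

/-- `F` is the meromorphic continuation of the (incomplete) Artin L-function, a convergent Euler product for
`Re s > 1`, to `Re s > 1/2` and to `s = 1/2`. -/
structure IsContinuation (ρ : Gal(L/ℚ) →* Matrix (Fin d) (Fin d) ℂ) (fr : ℕ → Gal(L/ℚ)) (F : ℂ → ℂ) :
    Prop where
  mero : ∀ s : ℂ, 1 / 2 < s.re → MeromorphicAt F s
  half : MeromorphicAt F (1 / 2)
  prod : ∀ s : ℂ, 1 < s.re → HasProd (eulerFactor ρ fr s) (F s)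

/-- the good primes up to `X` -/
noncomputable def goodPrimes (L : Type) [Field L] [NumberField L] (X : ℝ) : Finset ℕ :=
  open Classical in (Finset.range (⌊X⌋₊ + 1)).filter (Good L)

/-- the weight `exp (-(1 + iτ) (log p)^k / (log X)^(k-1))` -/
noncomputable def weight (k τ X : ℝ) (p : ℕ) : ℂ :=
  Complex.exp (-((1 + τ * Complex.I) * ((Real.log p) ^ k / (Real.log X) ^ (k - 1) : ℝ)))

/-- `W_{k,τ}(X)`: the weighted sum of `log |det (1 - p^(-1/2) ρ(Frob_p))|` -/
noncomputable def logSum (ρ : Gal(L/ℚ) →* Matrix (Fin d) (Fin d) ℂ) (fr : ℕ → Gal(L/ℚ)) (k τ X : ℝ) : ℂ :=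
  ∑ p ∈ goodPrimes L X, weight k τ X p *
    (Real.log ‖(1 - (((√(p : ℝ))⁻¹ : ℝ) : ℂ) • ρ (fr p)).det‖ : ℝ)

/-- `S_{k,τ}(X)`: the weighted sum of `Re χ(Frob_p) / √p` -/
noncomputable def charSum (ρ : Gal(L/ℚ) →* Matrix (Fin d) (Fin d) ℂ) (fr : ℕ → Gal(L/ℚ)) (k τ X : ℝ) : ℂ :=
  ∑ p ∈ goodPrimes L X, weight k τ X p * ((ρ (fr p)).trace.re / √(p : ℝ) : ℝ)

/-- the Frobenius–Schur indicator `(1/|G|) ∑ χ(g²)` (a real number; we take the real parts) -/
noncomputable def indicator (ρ : Gal(L/ℚ) →* Matrix (Fin d) (Fin d) ℂ) : ℝ :=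
  (∑ g : Gal(L/ℚ), (ρ (g ^ 2)).trace.re) / Nat.card Gal(L/ℚ)

/-- `W(X) = (1 - 1/k) a log log X + O(1)` -/
def Law (W : ℝ → ℂ) (k : ℝ) (a : ℂ) : Prop :=
  ∃ C : ℝ, ∀ᶠ X : ℝ in atTop, ‖W X - (1 - 1 / k) * a * (Real.log (Real.log X) : ℝ)‖ ≤ C

/-- `W(X) / log log X → (1 - 1/k) a` -/
def WeakLaw (W : ℝ → ℂ) (k : ℝ) (a : ℂ) : Prop :=
  Tendsto (fun X : ℝ => W X / (Real.log (Real.log X) : ℝ)) atTop (𝓝 ((1 - 1 / k) * a))

/-- `S_{k,τ}(X) / log log X → -(1 - 1/k) β` -/
def HasBias (ρ : Gal(L/ℚ) →* Matrix (Fin d) (Fin d) ℂ) (fr : ℕ → Gal(L/ℚ)) (k τ : ℝ) (β : ℂ) : Prop :=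
  WeakLaw (charSum ρ fr k τ) k (-β)

/-- `|W(X)| ≤ X^(o(1))` -/
def Slow (W : ℝ → ℂ) : Prop := ∀ ε : ℝ, 0 < ε → ∀ᶠ X : ℝ in atTop, ‖W X‖ ≤ X ^ ε

/-- The sector with vertex `1/2`: `s ≠ 1/2`, `|arg (s - 1/2) - θ| < φ`. -/
def OpenSector (θ φ : ℝ) : Set ℂ := {s | s ≠ 1 / 2 ∧ |Complex.arg (s - 1 / 2) - θ| < φ}

/-- The sector `S_{k,τ}`: `s ≠ 1/2`, `|arg (s - 1/2) - arctan τ / k| < (π/2)(1 - 1/k)`. -/
def Sector (k τ : ℝ) : Set ℂ := OpenSector (Real.arctan τ / k) (Real.pi / 2 * (1 - 1 / k))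

/-- `F(s) conj F(conj s)`, for the L-function of `χ` the function `L(s, χ) L(s, χ̄)`, has order zero at the
points of `U`. -/
def NoZerosNoPoles (F : ℂ → ℂ) (U : Set ℂ) : Prop :=
  ∀ s ∈ U, meromorphicOrderAt F s + meromorphicOrderAt F (conj s) = 0

end Defs

/-! ### Translation to the definitions of the imported files -/

section Translation

variable {L : Type} [Field L] [NumberField L] {d : ℕ}

open Pool.Agent.D0H40.AR
open Pool.Agent.D0H40.CX (dn)
open Pool.Agent.W401.Cheb (M)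

/-- the parameters -/
theorem exists_par (ρ : Gal(L/ℚ) →* Matrix (Fin d) (Fin d) ℂ) (fr : ℕ → Gal(L/ℚ)) :
    ∃ α : ℕ → Fin d → ℂ, Par (Good L) α ∧
      (∀ (p : ℕ) (x : ℂ), (1 - x • ρ (fr p)).det = ∏ j, (1 - α p j * x)) ∧
      (∀ p, (ρ (fr p)).trace = ∑ j, α p j) ∧
      ∀ p, (ρ ((fr p) ^ 2)).trace = ∑ j, α p j ^ 2 := by
  have hpow : ∀ g : Gal(L/ℚ), (ρ g) ^ (Nat.card Gal(L/ℚ)) = 1 := fun g => by
    rw [← map_pow, pow_card_eq_one', map_one]
  have h := fun p : ℕ => eig (M := ρ (fr p)) (n := Nat.card Gal(L/ℚ)) Nat.card_pos (hpow _)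
  choose α h1 h2 h3 h4 using h
  refine ⟨α, ⟨fun p hp => hp.1, fun p hp => ?_, fun p _ => h1 p⟩, h2, h3, fun p => ?_⟩
  · have h5 := hp.2.1
    rcases Nat.lt_or_ge 4 p with h6 | h6
    · omega
    · exfalso
      have h7 : p = 4 := by omega
      have h8 := hp.1
      rw [h7] at h8
      exact absurd h8 (by decide)
  · rw [map_pow]
    exact h4 p

theorem dn_eq (p : ℕ) : dn p = (√(p : ℝ))⁻¹ := by
  unfold dn
  rw [Real.rpow_neg (Nat.cast_nonneg _), ← Real.sqrt_eq_rpow]

variable {ρ : Gal(L/ℚ) →* Matrix (Fin d) (Fin d) ℂ} {fr : ℕ → Gal(L/ℚ)} {α : ℕ → Fin d → ℂ}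

theorem factor_eq (h : ∀ (p : ℕ) (x : ℂ), (1 - x • ρ (fr p)).det = ∏ j, (1 - α p j * x)) (s : ℂ) :
    eulerFactor ρ fr s = loc (Good L) α s := by
  funext p
  unfold eulerFactor loc
  rw [h]

theorem logSum_eq (H : Par (Good L) α)
    (h : ∀ (p : ℕ) (x : ℂ), (1 - x • ρ (fr p)).det = ∏ j, (1 - α p j * x)) (k τ : ℝ) :
    logSum ρ fr k τ = Lw (Good L) α k τ := by
  funext X
  unfold logSum Lw
  refine Finset.sum_congr rfl fun p hp => ?_
  have hG : Good L p := (mem_up.1 hp).2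
  have h5 := H.five p hG
  congr 2
  rw [h, norm_prod, Real.log_prod]
  · unfold lsum
    rw [dn_eq]
  · intro j _ hc
    have h6 : ‖α p j * (((√(p : ℝ))⁻¹ : ℝ) : ℂ)‖ ≤ 1 / 2 := by
      rw [norm_mul, H.unit p hG j, one_mul, ← dn_eq, Complex.norm_real,
        Real.norm_of_nonneg (Pool.Agent.D0H40.CX.dn_nonneg p)]
      exact Pool.Agent.D0H40.CX.dn_le h5
    have h7 := norm_eq_zero.1 hc
    have h8 : α p j * (((√(p : ℝ))⁻¹ : ℝ) : ℂ) = 1 := (sub_eq_zero.1 h7).symm
    rw [h8, norm_one] at h6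
    norm_num at h6

theorem charSum_eq (h : ∀ p, (ρ (fr p)).trace = ∑ j, α p j) (k τ : ℝ) :
    charSum ρ fr k τ = Sw (Good L) α k τ := by
  funext X
  unfold charSum Sw
  refine Finset.sum_congr rfl fun p _ => ?_
  congr 2
  unfold ssum
  rw [h, dn_eq, div_eq_mul_inv]

variable [IsGalois ℚ L]

theorem mean_sq (hfr : ∀ p, Good L p → IsFrobenius p (fr p))
    (h : ∀ p, (ρ ((fr p) ^ 2)).trace = ∑ j, α p j ^ 2) :
    Tendsto (M (bG (Good L) α)) atTop (𝓝 (indicator ρ)) := by
  have hD : 0 < 6 * (discr L).natAbs := by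
    have : discr L ≠ 0 := discr_ne_zero L
    have : 0 < (discr L).natAbs := Int.natAbs_pos.2 this
    omega
  have hgood : ∀ p : ℕ, p.Prime → ¬ p ∣ 6 * (discr L).natAbs → Good L p := by
    intro p hp hpD
    have h2 : ¬ p ∣ 6 := fun h => hpD (h.mul_right _)
    refine ⟨hp, ?_, fun h3 => hpD ?_⟩
    · by_contra hc
      have h4 := hp.two_le
      have h5 : p = 2 ∨ p = 3 := by omega
      rcases h5 with h5 | h5 <;> rw [h5] at h2 <;> exact h2 (by norm_num)
    · exact (Int.natCast_dvd.1 h3).mul_left _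
  refine frob_mean fr hD (fun p hp hpD => hfr p (hgood p hp hpD)) (fun g => (ρ (g ^ 2)).trace.re)
    (fun g h => ?_) _ (fun p hp hpD => ?_)
  · have e : (h⁻¹ * g * h) ^ 2 = h⁻¹ * g ^ 2 * h := by
      rw [pow_two, pow_two]
      group
    rw [e, map_mul, map_mul, Matrix.trace_mul_comm, ← Matrix.mul_assoc, ← map_mul, mul_inv_cancel, map_one,
      Matrix.one_mul]
  · unfold bG
    rw [if_pos (hgood p hp hpD), h]
    rfl

end Translation

section Laws

open Pool.Agent.D0H40.AR (WL SL)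

theorem loglog_tendsto : Tendsto (fun X : ℝ => Real.log (Real.log X)) atTop atTop :=
  Real.tendsto_log_atTop.comp Real.tendsto_log_atTop

theorem law_iff (W : ℝ → ℂ) (k : ℝ) (a : ℂ) : Law W k a ↔ SL W k a := by
  unfold Law SL Pool.Agent.D0H40.CX.XLaw
  simp only [zero_mul, zero_add]

theorem weakLaw_iff (W : ℝ → ℂ) (k : ℝ) (ρ : ℂ) : WeakLaw W k ρ ↔ WL W k ρ := by
  unfold WeakLaw WL Pool.Agent.D0H40.CX.XLaw
  have hl := loglog_tendsto
  constructor
  · intro h ε hε
    refine ⟨0, ?_⟩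
    rw [Metric.tendsto_nhds] at h
    filter_upwards [h ε hε, hl.eventually (eventually_gt_atTop 0)] with X h1 h2
    have h3 : ((Real.log (Real.log X) : ℝ) : ℂ) ≠ 0 := by exact_mod_cast h2.ne'
    rw [dist_eq_norm] at h1
    have e : W X - (1 - 1 / k) * ρ * (Real.log (Real.log X) : ℝ) =
        (W X / (Real.log (Real.log X) : ℝ) - (1 - 1 / k) * ρ) * (Real.log (Real.log X) : ℝ) := by
      field_simp
    rw [e, norm_mul, Complex.norm_real, Real.norm_eq_abs, abs_of_pos h2, add_zero]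
    exact mul_le_mul_of_nonneg_right h1.le h2.le
  · intro h
    rw [Metric.tendsto_nhds]
    intro ε hε
    obtain ⟨C, hC⟩ := h (ε / 2) (half_pos hε)
    filter_upwards [hC, hl.eventually (eventually_gt_atTop 0),
      hl.eventually (eventually_gt_atTop (C / (ε / 2)))] with X h1 h2 h3
    have h4 : ((Real.log (Real.log X) : ℝ) : ℂ) ≠ 0 := by exact_mod_cast h2.ne'
    rw [dist_eq_norm]
    have e : W X / (Real.log (Real.log X) : ℝ) - (1 - 1 / k) * ρ =
        (W X - (1 - 1 / k) * ρ * (Real.log (Real.log X) : ℝ)) / (Real.log (Real.log X) : ℝ) := by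
      field_simp
    rw [e, norm_div, Complex.norm_real, Real.norm_eq_abs, abs_of_pos h2, div_lt_iff₀ h2]
    rw [div_lt_iff₀ (half_pos hε)] at h3
    refine lt_of_le_of_lt h1 ?_
    have e2 : ε * Real.log (Real.log X) = ε / 2 * Real.log (Real.log X) + Real.log (Real.log X) * (ε / 2) := by
      ring
    rw [e2]
    linarith

end Laws

section Sectors

open Pool.Agent.D0H40.AR (Ph Ph_order')

theorem mem_sector (θ φ : ℝ) (w : ℂ) : 1 / 2 + w ∈ OpenSector θ φ ↔ w ∈ Pool.Agent.D0H40.CX.Os θ φ := by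
  unfold OpenSector Pool.Agent.D0H40.CX.Os
  simp only [Set.mem_ofPred_eq, add_sub_cancel_left, ne_eq, add_eq_left]

theorem noZeros_iff {F : ℂ → ℂ} (h : ∀ s : ℂ, 1 / 2 < s.re → MeromorphicAt F s) {θ φ : ℝ}
    (hφ : |θ| + φ ≤ Real.pi / 2) : NoZerosNoPoles F (OpenSector θ φ) ↔
      ∀ w ∈ Pool.Agent.D0H40.CX.Os θ φ, meromorphicOrderAt (Ph F) w = 0 := by
  have hre : ∀ w ∈ Pool.Agent.D0H40.CX.Os θ φ, 0 < w.re := by
    intro w hw
    have h1 := (mem_sector θ φ w).2 hw
    have h2 : |Complex.arg w| < Real.pi / 2 := by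
      have h3 := hw.2
      have h4 := abs_sub_abs_le_abs_sub (Complex.arg w) θ
      linarith
    exact (Complex.abs_arg_lt_pi_div_two_iff.1 h2).resolve_right hw.1
  constructor
  · intro h1 w hw
    rw [Ph_order' h (hre w hw)]
    exact h1 _ ((mem_sector θ φ w).2 hw)
  · intro h1 s hs
    have hw : s - 1 / 2 ∈ Pool.Agent.D0H40.CX.Os θ φ := by
      rw [← mem_sector, add_sub_cancel]
      exact hs
    have h2 := h1 _ hw
    rw [Ph_order' h (hre _ hw), add_sub_cancel] at h2
    exact h2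

end Sectors

/-- **The central orders of Artin L-functions and the bias of finite sums over primes.** -/
theorem result (L : Type) [Field L] [NumberField L] [IsGalois ℚ L]
    -- a Frobenius element at every good prime
    (fr : ℕ → Gal(L/ℚ)) (hfr : ∀ p, Good L p → IsFrobenius p (fr p)) :
    -- one representation
    (∀ (d : ℕ) (ρ : Gal(L/ℚ) →* Matrix (Fin d) (Fin d) ℂ) (F : ℂ → ℂ), IsContinuation ρ fr F →
      ∃ m : ℤ, meromorphicOrderAt F (1 / 2) = m ∧
        -- the sums of the logarithms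
        (∀ a : ℂ, ((∃ k τ : ℝ, 1 < k ∧ WeakLaw (logSum ρ fr k τ) k a) ↔ a = m) ∧
          ((∃ k τ : ℝ, 1 < k ∧ Law (logSum ρ fr k τ) k a) ↔ a = m)) ∧
        -- the character sums
        (∀ β : ℂ, (∃ k τ : ℝ, 1 < k ∧ HasBias ρ fr k τ β) ↔ β = m + indicator ρ / 2) ∧
        (∀ k τ : ℝ, 1 < k → ∀ a : ℂ,
          (WeakLaw (logSum ρ fr k τ) k a ↔ HasBias ρ fr k τ (a + indicator ρ / 2))) ∧
        -- the sectors
        (∀ k τ : ℝ, 1 < k → (Slow (logSum ρ fr k τ) ↔ NoZerosNoPoles F (Sector k τ)) ∧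
          (Slow (charSum ρ fr k τ) ↔ NoZerosNoPoles F (Sector k τ))) ∧
        (∀ (k τ : ℝ) (β : ℂ), 1 < k → HasBias ρ fr k τ β → NoZerosNoPoles F (Sector k τ)) ∧
        (∀ k τ θ φ : ℝ, 1 < k → |θ| + φ ≤ Real.pi / 2 →
          |Real.arctan τ / k - θ| + Real.pi / 2 * (1 - 1 / k) < φ → NoZerosNoPoles F (OpenSector θ φ) →
          Law (logSum ρ fr k τ) k m ∧ HasBias ρ fr k τ (m + indicator ρ / 2)) ∧
        -- the statements (ii) and (iii)
        (m = 0 ↔ ∃ k τ : ℝ, 1 < k ∧ HasBias ρ fr k τ (indicator ρ / 2)) ∧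
        (0 ≤ m → indicator ρ = 1 ∨ indicator ρ = 0 ∨ indicator ρ = -1 →
          (((0 ≤ indicator ρ → m = 0) ∧ (indicator ρ = -1 → m = 0 ∨ m = 1)) ↔
            ∃ k τ β : ℝ, 1 < k ∧ β ≤ 1 / 2 ∧ HasBias ρ fr k τ β))) ∧
    -- finitely many representations
    (∀ (ι : Type) (_ : Finite ι) (d : ι → ℕ) (ρ : (i : ι) → Gal(L/ℚ) →* Matrix (Fin (d i)) (Fin (d i)) ℂ)
      (F : ι → ℂ → ℂ), (∀ i, IsContinuation (ρ i) fr (F i)) → ∃ k τ : ℝ, 1 < k ∧
        ∀ i, ∃ m : ℤ, meromorphicOrderAt (F i) (1 / 2) = m ∧ Law (logSum (ρ i) fr k τ) k m ∧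
          HasBias (ρ i) fr k τ (m + indicator (ρ i) / 2)) := by
  constructor
  · intro d ρ F hF
    obtain ⟨α, H, h1, h2, h3⟩ := exists_par ρ fr
    have hν := mean_sq hfr h3
    have hprod : ∀ s : ℂ, 1 < s.re → HasProd (Pool.Agent.D0H40.AR.loc (Good L) α s) (F s) := by
      intro s hs
      rw [← factor_eq h1]
      exact hF.prod s hs
    have e1 := logSum_eq H h1
    have e2 := charSum_eq (ρ := ρ) (fr := fr) h2
    obtain ⟨m, hm⟩ := H.order_ne hF.mero hF.half hprod
    have hbwd : ∀ (a : ℂ) (k τ : ℝ), 1 < k → WeakLaw (logSum ρ fr k τ) k a → a = m := by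
      intro a k τ hk h
      rw [weakLaw_iff, e1] at h
      obtain ⟨m', h4, h5⟩ := H.bwd hF.mero hF.half hprod hk τ h
      rw [hm, WithTop.coe_inj] at h4
      rw [h5, h4]
    have hfwd : ∃ k τ : ℝ, 1 < k ∧ Law (logSum ρ fr k τ) k m := by
      obtain ⟨k, τ, hk, h⟩ := H.fwd hF.mero hF.half hprod hm
      refine ⟨k, τ, hk, ?_⟩
      rw [law_iff, e1]
      exact h
    have hweak : ∀ (a : ℂ) (k τ : ℝ), Law (logSum ρ fr k τ) k a → WeakLaw (logSum ρ fr k τ) k a := by
      intro a k τ h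
      rw [law_iff] at h
      rw [weakLaw_iff]
      exact Pool.Agent.D0H40.AR.SL_WL h
    have hboth : ∀ k τ : ℝ, 1 < k → ∀ a : ℂ,
        (WeakLaw (logSum ρ fr k τ) k a ↔ HasBias ρ fr k τ (a + indicator ρ / 2)) := by
      intro k τ hk a
      unfold HasBias
      rw [weakLaw_iff, weakLaw_iff, e1, e2]
      exact H.law_bias hν hk τ a
    have hbias : ∀ β : ℂ, (∃ k τ : ℝ, 1 < k ∧ HasBias ρ fr k τ β) ↔ β = m + indicator ρ / 2 := by
      intro β
      constructor
      · rintro ⟨k, τ, hk, h⟩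
        have h4 : WeakLaw (logSum ρ fr k τ) k (β - indicator ρ / 2) := by
          rw [hboth k τ hk, sub_add_cancel]
          exact h
        have h5 := hbwd _ k τ hk h4
        rw [← h5]
        ring
      · rintro rfl
        obtain ⟨k, τ, hk, h⟩ := hfwd
        exact ⟨k, τ, hk, (hboth k τ hk _).1 (hweak _ _ _ h)⟩
    have hsec : ∀ k τ : ℝ, 1 < k → (Slow (logSum ρ fr k τ) ↔ NoZerosNoPoles F (Sector k τ)) := by
      intro k τ hk
      unfold Slow Sector
      rw [e1, H.growth hF.mero hF.half hprod hk τ]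
      exact (noZeros_iff hF.mero (Pool.Agent.D0H40.KX.bt_abs_lt hk τ).le).symm
    have hsec2 : ∀ k τ : ℝ, 1 < k → (Slow (charSum ρ fr k τ) ↔ NoZerosNoPoles F (Sector k τ)) := by
      intro k τ hk
      rw [← hsec k τ hk]
      unfold Slow
      rw [e1, e2]
      exact H.growth_bias hν hk τ
    refine ⟨m, hm, fun a => ⟨⟨?_, ?_⟩, ⟨?_, ?_⟩⟩, hbias, hboth,
      fun k τ hk => ⟨hsec k τ hk, hsec2 k τ hk⟩, ?_, ?_, ⟨?_, ?_⟩, ?_⟩
    · rintro ⟨k, τ, hk, h⟩
      exact hbwd a k τ hk h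
    · rintro rfl
      obtain ⟨k, τ, hk, h⟩ := hfwd
      exact ⟨k, τ, hk, hweak _ _ _ h⟩
    · rintro ⟨k, τ, hk, h⟩
      exact hbwd a k τ hk (hweak _ _ _ h)
    · rintro rfl
      exact hfwd
    · intro k τ β hk h
      rw [← hsec2 k τ hk]
      unfold HasBias WeakLaw at h
      intro ε hε
      have h4 := h.norm.eventually (eventually_le_nhds (lt_add_one _))
      have h5 := (isLittleO_log_rpow_atTop hε).bound
        (show (0:ℝ) < 1 / (‖(1 - 1 / (k : ℂ)) * -β‖ + 1) by positivity)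
      filter_upwards [h4, h5, eventually_ge_atTop (Real.exp 1),
        loglog_tendsto.eventually (eventually_gt_atTop 0)] with X h6 h7 h8 h9
      have hX0 : 0 < X := (Real.exp_pos 1).trans_le h8
      have hL1 : 1 ≤ Real.log X := by
        have := Real.log_le_log (Real.exp_pos 1) h8
        rwa [Real.log_exp] at this
      have h10 : Real.log (Real.log X) ≤ Real.log X := by
        have := Real.log_le_sub_one_of_pos (show 0 < Real.log X by linarith)
        linarith
      rw [norm_div, Complex.norm_real, Real.norm_of_nonneg h9.le, div_le_iff₀ h9] at h6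
      rw [Real.norm_of_nonneg (by linarith), Real.norm_of_nonneg (by positivity)] at h7
      set A : ℝ := ‖(1 - 1 / (k : ℂ)) * -β‖ + 1 with hA
      have hA0 : 0 < A := by positivity
      have h11 : A * Real.log X ≤ X ^ ε := by
        have := mul_le_mul_of_nonneg_left h7 hA0.le
        have e : A * (1 / A * X ^ ε) = X ^ ε := by field_simp
        linarith
      have h12 := mul_le_mul_of_nonneg_left h10 hA0.le
      linarith
    · intro k τ θ φ hk hφ hin hno
      have h0 : 0 < φ := by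
        have h4 : 0 < Real.pi / 2 * (1 - 1 / k) := Pool.Agent.D0H40.KX.fc_pos hk
        have := abs_nonneg (Real.arctan τ / k - θ)
        linarith
      have h4 := H.law_sector hF.mero hF.half hprod hm h0 hφ ((noZeros_iff hF.mero hφ).1 hno) hk τ hin
      have h5 : Law (logSum ρ fr k τ) k m := by
        rw [law_iff, e1]
        exact h4
      exact ⟨h5, (hboth k τ hk _).1 (hweak _ _ _ h5)⟩
    · intro h0
      refine (hbias _).2 ?_
      rw [h0]
      push_cast
      ring
    · rintro h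
      have h4 := (hbias _).1 h
      have h5 : (m : ℂ) = 0 := by linear_combination -h4
      exact_mod_cast h5
    · intro hm0 hν3
      constructor
      · rintro ⟨h4, h5⟩
        have h6 : (m : ℝ) + indicator ρ / 2 ≤ 1 / 2 := by
          rcases hν3 with h | h | h
          · rw [h4 (by rw [h]; norm_num), h]
            norm_num
          · rw [h4 (by rw [h]), h]
            norm_num
          · rcases h5 h with h7 | h7 <;> rw [h7, h] <;> norm_num
        obtain ⟨k, τ, hk, h⟩ := (hbias (m + indicator ρ / 2)).2 rfl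
        refine ⟨k, τ, (m : ℝ) + indicator ρ / 2, hk, h6, ?_⟩
        push_cast
        exact h
      · rintro ⟨k, τ, β, hk, hβ, h⟩
        have h4 := (hbias _).1 ⟨k, τ, hk, h⟩
        have h5 : β = (m : ℝ) + indicator ρ / 2 := by exact_mod_cast h4
        rw [h5] at hβ
        have hm1 : (0 : ℝ) ≤ m := by exact_mod_cast hm0
        constructor
        · intro h6
          have h7 : (m : ℝ) < 1 := by
            rcases hν3 with h | h | h
            · rw [h] at hβ
              linarith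
            · rw [h] at hβ
              linarith
            · rw [h] at h6
              norm_num at h6
          have h8 : m < 1 := by exact_mod_cast h7
          omega
        · intro h6
          rw [h6] at hβ
          have h7 : (m : ℝ) ≤ 1 := by linarith
          have h8 : m ≤ 1 := by exact_mod_cast h7
          omega
  · intro ι _ d ρ F hF
    have h := fun i => exists_par (ρ i) fr
    choose α H h1 h2 h3 using h
    have hprod : ∀ i, ∀ s : ℂ, 1 < s.re → HasProd (Pool.Agent.D0H40.AR.loc (Good L) (α i) s) (F i s) := by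
      intro i s hs
      rw [← factor_eq (h1 i)]
      exact (hF i).prod s hs
    have hm := fun i => (H i).order_ne (hF i).mero (hF i).half (hprod i)
    choose m hm using hm
    obtain ⟨k, τ, hk, h4⟩ := Pool.Agent.D0H40.AR.common_choice d α H F (fun i => (hF i).mero)
      (fun i => (hF i).half) hprod m hm
    refine ⟨k, τ, hk, fun i => ⟨m i, hm i, ?_, ?_⟩⟩
    · rw [law_iff, logSum_eq (H i) (h1 i)]
      exact h4 i
    · unfold HasBias
      rw [weakLaw_iff, charSum_eq (ρ := ρ i) (fr := fr) (h2 i)]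
      exact ((H i).law_bias (mean_sq hfr (h3 i)) hk τ _).1 (Pool.Agent.D0H40.AR.SL_WL (h4 i))

end Pool.Agent.Results.MP_3b6604_nt.CentralOrdersAsBias
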