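import Pool.Agent.D0H40.SP.Mean
import Pool.Agent.D0H40.AR.Frob
import Pool.Agent.D0H40.AR.Eig

/-!
# The partial Euler products of Artin L-functions at `s = 1/2`

Let `L/ℚ` be a finite Galois extension, `ρ` a representation of `Gal(L/ℚ)` with character `χ`, and let
`L(s, χ)` be its Artin L-function.  By Brauer's theorem it is meromorphic on the whole plane; we use the
continuation `F` to `Re s > 1/2` and to `s = 1/2` only, and no bound for its growth.  (We leave out the Euler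
factors at `2`, `3` and at the ramified primes.  They have no zeros and no poles for `Re s > 0`.)  Let `m` be the
order of `F` at `s = 1/2`, let `|F(s)| ~ c |s - 1/2|^m`, and let `ν` be the Frobenius–Schur indicator of `χ`.
Consider the partial products

`P(x) = ∏_{p ≤ x} |det (1 - p^(-1/2) ρ(Frob_p))|`   and the constant   `T = 2^(-ν/2) e^(mγ) / c`.

Under the deep Riemann hypothesis one has `P(x) ~ T (log x)^m`.  Let `ord s` be the order at `s` of
`F(s) conj F(conj s)`, which is the function `L(s, χ) L(s, χ̄)`.  We say `RH` if `ord s = 0` for `Re s > 1/2`, that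
`F` is zero-dominated (pole-dominated) if there is a real number `s₀ > 1/2` with `ord s₀ > 0` (`ord s₀ < 0`) and
`ord s = 0` for `Re s > s₀`.

* If `RH` fails and `F` is neither zero-dominated nor pole-dominated, then for every slowly changing
  subexponential sequence `f`, for example all powers of `log n`, every number `A ≥ 0` is a limit point of
  `P(n) / f(n)`.
* Zeros or poles with `Re s > 1/2 + θ` lead to `P(n) > exp (n^θ)` and `P(n) < exp (-n^θ)` for infinitely many `n`.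
* One-sided bounds `P(n) ≤ (log n)^(a + o(1))`, `P(n) ≥ (log n)^(a - o(1))` imply `RH` and `m ≤ a`, `a ≤ m`.
* `P(n) / (log n)^a → 0` implies `RH` and `m < a`; `P(n) / (log n)^a → ∞` implies `RH` and `a < m`.  In particular
  `P(n) = o(log n)` implies `m ≤ 0`, and `P(n) = o((log n)^2)` implies `m ≤ 1`; these are the bounds of the
  statements (ii) and (iii) of the problem.
* If `P(n) / (log n)^a → A` with `0 < A < ∞`, then `RH` holds, `a = m` and `A = T`.
* The upper limit of `P(n) / (log n)^m` is at least `T` and the lower limit is at most `T`.  `T` is a limit point,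
  and either `P(n) ~ T (log n)^m` or all numbers between `T` and some `B ≠ T` are limit points.
* A one-sided bound `P(n) ≤ exp (n^(o(1)))` or `P(n) ≥ exp (-n^(o(1)))` implies `RH` and
  `w ∫_e^∞ log (P(x) / (log x)^m) x^(-1-w) dx → log T` for `w → 0+`.

The statements with lower bounds need that `F` is not zero-dominated, those with upper bounds that `F` is not
pole-dominated.  The constant uses Chebotarev's theorem with natural density.
-/

set_option autoImplicit false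

namespace Pool.Agent.Results.MP_3b6604_nt.PartialProductsAtCentre

open Filter Topology NumberField MeasureTheory
open scoped ComplexConjugate

section Defs

variable {L : Type} [Field L] [NumberField L] {d : ℕ}

/-- `p > 3` is a prime which is unramified in `L`. -/
def Good (L : Type) [Field L] [NumberField L] (p : ℕ) : Prop :=
  p.Prime ∧ 3 < p ∧ ¬ (p : ℤ) ∣ discr L

/-- `σ` is a Frobenius element at `p`: there is a maximal ideal `Q` of `𝓞 L` which contains `p` with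
`σ x ≡ x^p` modulo `Q` for all `x ∈ 𝓞 L`. -/
def IsFrobenius (p : ℕ) (σ : Gal(L/ℚ)) : Prop :=
  ∃ Q : Ideal (𝓞 L), Q.IsMaximal ∧ (p : 𝓞 L) ∈ Q ∧ ∀ x : 𝓞 L, σ • x - x ^ p ∈ Q

/-- the Euler factor `det (1 - p^(-s) ρ(Frob_p))⁻¹` of the good primes, and `1` for the other `p` -/
noncomputable def eulerFactor (ρ : Gal(L/ℚ) →* Matrix (Fin d) (Fin d) ℂ) (fr : ℕ → Gal(L/ℚ)) (s : ℂ)
    (p : ℕ) : ℂ :=
  open Classical in if Good L p then ((1 - (p : ℂ) ^ (-s) • ρ (fr p)).det)⁻¹ else 1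

/-- `F` is the meromorphic continuation of the (incomplete) Artin L-function, a convergent Euler product for
`Re s > 1`, to `Re s > 1/2` and to `s = 1/2`. -/
structure IsContinuation (ρ : Gal(L/ℚ) →* Matrix (Fin d) (Fin d) ℂ) (fr : ℕ → Gal(L/ℚ)) (F : ℂ → ℂ) :
    Prop where
  mero : ∀ s : ℂ, 1 / 2 < s.re → MeromorphicAt F s
  half : MeromorphicAt F (1 / 2)
  prod : ∀ s : ℂ, 1 < s.re → HasProd (eulerFactor ρ fr s) (F s)

/-- the good primes up to `x` -/
noncomputable def goodPrimes (L : Type) [Field L] [NumberField L] (x : ℝ) : Finset ℕ :=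
  open Classical in (Finset.range (⌊x⌋₊ + 1)).filter (Good L)

/-- `P(x)`: the partial product of `|det (1 - p^(-1/2) ρ(Frob_p))|` -/
noncomputable def partialProduct (ρ : Gal(L/ℚ) →* Matrix (Fin d) (Fin d) ℂ) (fr : ℕ → Gal(L/ℚ)) (x : ℝ) : ℝ :=
  ∏ p ∈ goodPrimes L x, ‖(1 - (((√(p : ℝ))⁻¹ : ℝ) : ℂ) • ρ (fr p)).det‖

/-- the Frobenius–Schur indicator `(1/|G|) ∑ χ(g²)` (a real number; we take the real parts) -/
noncomputable def indicator (ρ : Gal(L/ℚ) →* Matrix (Fin d) (Fin d) ℂ) : ℝ :=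
  (∑ g : Gal(L/ℚ), (ρ (g ^ 2)).trace.re) / Nat.card Gal(L/ℚ)

/-- the order at `s` of `F(s) conj F(conj s)`, for the L-function of `χ` the function `L(s, χ) L(s, χ̄)` -/
noncomputable def ord (F : ℂ → ℂ) (s : ℂ) : WithTop ℤ :=
  meromorphicOrderAt F s + meromorphicOrderAt F (conj s)

/-- the Riemann hypothesis for `L(s, χ) L(s, χ̄)` -/
def RH (F : ℂ → ℂ) : Prop := ∀ s : ℂ, 1 / 2 < s.re → ord F s = 0

/-- a real zero `s₀ > 1/2`, and no zeros and poles with greater real part -/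
def ZeroDominated (F : ℂ → ℂ) : Prop :=
  ∃ s₀ : ℝ, 1 / 2 < s₀ ∧ 0 < ord F s₀ ∧ ∀ s : ℂ, s₀ < s.re → ord F s = 0

/-- a real pole `s₀ > 1/2`, and no zeros and poles with greater real part -/
def PoleDominated (F : ℂ → ℂ) : Prop :=
  ∃ s₀ : ℝ, 1 / 2 < s₀ ∧ ord F s₀ < 0 ∧ ∀ s : ℂ, s₀ < s.re → ord F s = 0

/-- slowly changing subexponential sequences: `f(n) > 0` for large `n`, `f(n+1)/f(n) → 1` and
`|log f(n)| ≤ n^(o(1))` -/
structure IsSlow (f : ℕ → ℝ) : Prop where
  pos : ∀ᶠ n in atTop, 0 < f n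
  ratio : Tendsto (fun n => f (n + 1) / f n) atTop (𝓝 1)
  sub : ∀ ε : ℝ, 0 < ε → ∀ᶠ n : ℕ in atTop, |Real.log (f n)| ≤ (n : ℝ) ^ ε

/-- the sequence `(log n)^a` -/
noncomputable def logPow (a : ℝ) (n : ℕ) : ℝ := Real.log n ^ a

/-- the quotients `P(n) / f(n)` -/
noncomputable def quot (ρ : Gal(L/ℚ) →* Matrix (Fin d) (Fin d) ℂ) (fr : ℕ → Gal(L/ℚ)) (f : ℕ → ℝ) (n : ℕ) : ℝ :=
  partialProduct ρ fr n / f n

/-- `A` is a limit point of the sequence `g` -/
def IsLimitPoint (g : ℕ → ℝ) (A : ℝ) : Prop :=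
  ∃ n : ℕ → ℕ, Tendsto n atTop atTop ∧ Tendsto (fun k => g (n k)) atTop (𝓝 A)

/-- `w ∫_e^∞ g(x) x^(-1-w) dx → A` for `w → 0+`, where the integrals (written with `x = e^u`) converge for
`w > 0` -/
def HasMean (g : ℝ → ℝ) (A : ℝ) : Prop :=
  (∀ w : ℝ, 0 < w → IntegrableOn (fun u : ℝ => g (Real.exp u) * Real.exp (-(w * u))) (Set.Ioi 1)) ∧
    Tendsto (fun w : ℝ => w * ∫ u in Set.Ioi (1 : ℝ), g (Real.exp u) * Real.exp (-(w * u))) (𝓝[>] 0) (𝓝 A)

end Defs

/-! ### Translation to the definitions of the imported files -/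

section Translation

variable {L : Type} [Field L] [NumberField L] {d : ℕ}

open Pool.Agent.D0H40.AR
open Pool.Agent.D0H40.SP
open Pool.Agent.D0H40.CX (dn)
open Pool.Agent.W401.Cheb (M)

/-- the parameters -/
theorem exists_par (ρ : Gal(L/ℚ) →* Matrix (Fin d) (Fin d) ℂ) (fr : ℕ → Gal(L/ℚ)) :
    ∃ α : ℕ → Fin d → ℂ, Par (Good L) α ∧
      (∀ (p : ℕ) (x : ℂ), (1 - x • ρ (fr p)).det = ∏ j, (1 - α p j * x)) ∧
      ∀ p, (ρ ((fr p) ^ 2)).trace = ∑ j, α p j ^ 2 := by
  have hpow : ∀ g : Gal(L/ℚ), (ρ g) ^ (Nat.card Gal(L/ℚ)) = 1 := fun g => by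
    rw [← map_pow, pow_card_eq_one', map_one]
  have h := fun p : ℕ => eig (M := ρ (fr p)) (n := Nat.card Gal(L/ℚ)) Nat.card_pos (hpow _)
  choose α h1 h2 h3 h4 using h
  refine ⟨α, ⟨fun p hp => hp.1, fun p hp => ?_, fun p _ => h1 p⟩, h2, fun p => ?_⟩
  · have h5 := hp.2.1
    rcases Nat.lt_or_ge 4 p with h6 | h6
    · omega
    · exfalso
      have h7 : p = 4 := by omega
      have h8 := hp.1
      rw [h7] at h8
      exact absurd h8 (by decide)
  · rw [map_pow]
    exact h4 p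

theorem dn_eq (p : ℕ) : dn p = (√(p : ℝ))⁻¹ := by
  unfold dn
  rw [Real.rpow_neg (Nat.cast_nonneg _), ← Real.sqrt_eq_rpow]

variable {ρ : Gal(L/ℚ) →* Matrix (Fin d) (Fin d) ℂ} {fr : ℕ → Gal(L/ℚ)} {α : ℕ → Fin d → ℂ}

theorem factor_eq (h : ∀ (p : ℕ) (x : ℂ), (1 - x • ρ (fr p)).det = ∏ j, (1 - α p j * x)) (s : ℂ) :
    eulerFactor ρ fr s = loc (Good L) α s := by
  funext p
  unfold eulerFactor loc
  rw [h]

theorem one_sub_ne (H : Par (Good L) α) {p : ℕ} (hG : Good L p) (j : Fin d) : ‖1 - α p j * dn p‖ ≠ 0 := by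
  intro hc
  have h5 := H.five p hG
  have h6 : ‖α p j * dn p‖ ≤ 1 / 2 := by
    rw [norm_mul, H.unit p hG j, one_mul, Complex.norm_real,
      Real.norm_of_nonneg (Pool.Agent.D0H40.CX.dn_nonneg p)]
    exact Pool.Agent.D0H40.CX.dn_le h5
  have h7 := norm_eq_zero.1 hc
  have h8 : α p j * dn p = 1 := (sub_eq_zero.1 h7).symm
  rw [h8, norm_one] at h6
  norm_num at h6

theorem product_eq (H : Par (Good L) α)
    (h : ∀ (p : ℕ) (x : ℂ), (1 - x • ρ (fr p)).det = ∏ j, (1 - α p j * x)) (x : ℝ) :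
    partialProduct ρ fr x = Real.exp (SS (Good L) α ⌊x⌋₊) := by
  unfold partialProduct SS
  rw [up_floor, Real.exp_sum]
  refine Finset.prod_congr rfl fun p hp => ?_
  have hG : Good L p := (mem_up.1 hp).2
  rw [h, norm_prod]
  unfold lsum
  rw [Real.exp_sum]
  refine Finset.prod_congr rfl fun j _ => ?_
  rw [← dn_eq, Real.exp_log]
  exact lt_of_le_of_ne (norm_nonneg _) (one_sub_ne H hG j).symm

theorem product_nat (H : Par (Good L) α)
    (h : ∀ (p : ℕ) (x : ℂ), (1 - x • ρ (fr p)).det = ∏ j, (1 - α p j * x)) (n : ℕ) :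
    partialProduct ρ fr n = Real.exp (SS (Good L) α n) := by
  rw [product_eq H h, Nat.floor_natCast]

theorem quot_eq (H : Par (Good L) α)
    (h : ∀ (p : ℕ) (x : ℂ), (1 - x • ρ (fr p)).det = ∏ j, (1 - α p j * x)) (f : ℕ → ℝ) :
    quot ρ fr f = qs (SS (Good L) α) f := by
  funext n
  unfold quot qs
  rw [product_nat H h]

theorem lp_iff (H : Par (Good L) α)
    (h : ∀ (p : ℕ) (x : ℂ), (1 - x • ρ (fr p)).det = ∏ j, (1 - α p j * x)) (f : ℕ → ℝ) (A : ℝ) :
    IsLimitPoint (quot ρ fr f) A ↔ LPs (SS (Good L) α) f A := by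
  rw [quot_eq H h]
  rfl

variable [IsGalois ℚ L]

theorem mean_sq (hfr : ∀ p, Good L p → IsFrobenius p (fr p))
    (h : ∀ p, (ρ ((fr p) ^ 2)).trace = ∑ j, α p j ^ 2) :
    Tendsto (M (bG (Good L) α)) atTop (𝓝 (indicator ρ)) := by
  have hD : 0 < 6 * (discr L).natAbs := by
    have : discr L ≠ 0 := discr_ne_zero L
    have : 0 < (discr L).natAbs := Int.natAbs_pos.2 this
    omega
  have hgood : ∀ p : ℕ, p.Prime → ¬ p ∣ 6 * (discr L).natAbs → Good L p := by
    intro p hp hpD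
    have h2 : ¬ p ∣ 6 := fun h => hpD (h.mul_right _)
    refine ⟨hp, ?_, fun h3 => hpD ?_⟩
    · by_contra hc
      have h4 := hp.two_le
      have h5 : p = 2 ∨ p = 3 := by omega
      rcases h5 with h5 | h5 <;> rw [h5] at h2 <;> exact h2 (by norm_num)
    · exact (Int.natCast_dvd.1 h3).mul_left _
  refine frob_mean fr hD (fun p hp hpD => hfr p (hgood p hp hpD)) (fun g => (ρ (g ^ 2)).trace.re)
    (fun g h => ?_) _ (fun p hp hpD => ?_)
  · have e : (h⁻¹ * g * h) ^ 2 = h⁻¹ * g ^ 2 * h := by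
      rw [pow_two, pow_two]
      group
    rw [e, map_mul, map_mul, Matrix.trace_mul_comm, ← Matrix.mul_assoc, ← map_mul, mul_inv_cancel, map_one,
      Matrix.one_mul]
  · unfold bG
    rw [if_pos (hgood p hp hpD), h]
    rfl

end Translation

theorem slow_iff {f : ℕ → ℝ} : IsSlow f ↔ Pool.Agent.D0H40.PL.Slow f :=
  ⟨fun h => ⟨h.pos, h.ratio, h.sub⟩, fun h => ⟨h.pos, h.ratio, h.sub⟩⟩

/-- the leading coefficient -/
theorem exists_lead {F : ℂ → ℂ} (h : MeromorphicAt F (1 / 2)) {m : ℤ}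
    (hm : meromorphicOrderAt F (1 / 2) = m) :
    ∃ c : ℝ, 0 < c ∧ Tendsto (fun s : ℂ => ‖F s‖ / ‖s - 1 / 2‖ ^ m) (𝓝[≠] (1 / 2)) (𝓝 c) := by
  obtain ⟨g, hg, hg0, hgF⟩ := (meromorphicOrderAt_eq_int_iff h).1 hm
  refine ⟨‖g (1 / 2)‖, norm_pos_iff.2 hg0, ?_⟩
  have h1 : Tendsto (fun s => ‖g s‖) (𝓝[≠] (1 / 2)) (𝓝 ‖g (1 / 2)‖) :=
    (hg.continuousAt.tendsto.mono_left nhdsWithin_le_nhds).norm
  refine h1.congr' ?_
  filter_upwards [hgF, self_mem_nhdsWithin] with s h2 h3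
  have hs : s - 1 / 2 ≠ 0 := sub_ne_zero.2 h3
  have : ‖s - 1 / 2‖ ^ m ≠ 0 := zpow_ne_zero _ (norm_ne_zero_iff.2 hs)
  rw [h2, smul_eq_mul, norm_mul, norm_zpow, mul_div_cancel_left₀ _ this]

/-- **The partial Euler products of Artin L-functions at the centre.** -/
theorem result (L : Type) [Field L] [NumberField L] [IsGalois ℚ L]
    -- a Frobenius element at every good prime
    (fr : ℕ → Gal(L/ℚ)) (hfr : ∀ p, Good L p → IsFrobenius p (fr p))
    -- a representation and its L-function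
    (d : ℕ) (ρ : Gal(L/ℚ) →* Matrix (Fin d) (Fin d) ℂ) (F : ℂ → ℂ) (hF : IsContinuation ρ fr F) :
    -- the order and the leading coefficient at `1/2`
    ∃ (m : ℤ) (c T : ℝ), meromorphicOrderAt F (1 / 2) = m ∧ 0 < c ∧
      Tendsto (fun s : ℂ => ‖F s‖ / ‖s - 1 / 2‖ ^ m) (𝓝[≠] (1 / 2)) (𝓝 c) ∧
      T = (2 : ℝ) ^ (-(indicator ρ / 2)) * Real.exp (m * Real.eulerMascheroniConstant) / c ∧
      -- failure of the Riemann hypothesis
      (¬ RH F → ¬ ZeroDominated F → ¬ PoleDominated F → ∀ f : ℕ → ℝ, IsSlow f → ∀ A : ℝ, 0 ≤ A →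
        IsLimitPoint (quot ρ fr f) A) ∧
      (∀ θ : ℝ, 0 ≤ θ → (∃ s : ℂ, 1 / 2 + θ < s.re ∧ ord F s ≠ 0) →
        ((∀ s : ℝ, 1 / 2 + θ < s → 0 ≤ ord F s) →
          ∃ᶠ n : ℕ in atTop, Real.exp ((n : ℝ) ^ θ) < partialProduct ρ fr n) ∧
        ((∀ s : ℝ, 1 / 2 + θ < s → ord F s ≤ 0) →
          ∃ᶠ n : ℕ in atTop, partialProduct ρ fr n < Real.exp (-(n : ℝ) ^ θ))) ∧
      -- one-sided bounds
      (∀ a : ℝ, (¬ PoleDominated F → (∀ ε : ℝ, 0 < ε → ∀ᶠ n : ℕ in atTop,
          partialProduct ρ fr n ≤ Real.log n ^ (a + ε)) → RH F ∧ (m : ℝ) ≤ a) ∧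
        (¬ ZeroDominated F → (∀ ε : ℝ, 0 < ε → ∀ᶠ n : ℕ in atTop,
          Real.log n ^ (a - ε) ≤ partialProduct ρ fr n) → RH F ∧ a ≤ (m : ℝ))) ∧
      -- one-sided limits
      (∀ a : ℝ, (¬ PoleDominated F → Tendsto (quot ρ fr (logPow a)) atTop (𝓝 0) → RH F ∧ (m : ℝ) < a) ∧
        (¬ ZeroDominated F → Tendsto (quot ρ fr (logPow a)) atTop atTop → RH F ∧ a < (m : ℝ))) ∧
      -- two-sided limits
      (∀ a A : ℝ, 0 < A → Tendsto (quot ρ fr (logPow a)) atTop (𝓝 A) → RH F ∧ a = (m : ℝ) ∧ A = T) ∧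
      -- the constant
      (¬ PoleDominated F → ∀ A : ℝ, A < T → ∃ᶠ n in atTop, A < quot ρ fr (logPow m) n) ∧
      (¬ ZeroDominated F → ∀ A : ℝ, T < A → ∃ᶠ n in atTop, quot ρ fr (logPow m) n < A) ∧
      (¬ ZeroDominated F → ¬ PoleDominated F → IsLimitPoint (quot ρ fr (logPow m)) T ∧
        (Tendsto (quot ρ fr (logPow m)) atTop (𝓝 T) ∨ ∃ B : ℝ, B ≠ T ∧ 0 ≤ B ∧
          ∀ v ∈ Set.uIcc T B, IsLimitPoint (quot ρ fr (logPow m)) v)) ∧
      -- mean values
      (¬ PoleDominated F → (∀ ε : ℝ, 0 < ε → ∀ᶠ n : ℕ in atTop,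
          partialProduct ρ fr n ≤ Real.exp ((n : ℝ) ^ ε)) →
        RH F ∧ HasMean (fun x => Real.log (partialProduct ρ fr x / Real.log x ^ (m : ℝ))) (Real.log T)) ∧
      (¬ ZeroDominated F → (∀ ε : ℝ, 0 < ε → ∀ᶠ n : ℕ in atTop,
          Real.exp (-(n : ℝ) ^ ε) ≤ partialProduct ρ fr n) →
        RH F ∧ HasMean (fun x => Real.log (partialProduct ρ fr x / Real.log x ^ (m : ℝ))) (Real.log T)) ∧
      -- the limit points form an interval
      (∀ f : ℕ → ℝ, IsSlow f → ∀ u v w : ℝ, u ≤ v → v ≤ w → IsLimitPoint (quot ρ fr f) u →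
        IsLimitPoint (quot ρ fr f) w → IsLimitPoint (quot ρ fr f) v) := by
  obtain ⟨α, H, h1, h3⟩ := exists_par ρ fr
  have hν := mean_sq hfr h3
  have hprod : ∀ s : ℂ, 1 < s.re → HasProd (Pool.Agent.D0H40.AR.loc (Good L) α s) (F s) := by
    intro s hs
    rw [← factor_eq h1]
    exact hF.prod s hs
  obtain ⟨m, hm⟩ := H.order_ne hF.mero hF.half hprod
  obtain ⟨c, hc0, hc⟩ := exists_lead hF.half hm
  have D := Pool.Agent.D0H40.SP.par_PD H hF.mero hF.half hprod
  have HL := Pool.Agent.D0H40.SP.par_Lead H hF.half hm hc0 hc (Pool.Agent.D0H40.SP.win_lim H hν)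
  have hRH : Pool.Agent.D0H40.SP.RHm (Pool.Agent.D0H40.AR.Ph F) ↔ RH F :=
    Pool.Agent.D0H40.SP.rhm_iff hF.mero
  have hZ : Pool.Agent.D0H40.SP.ZDom (Pool.Agent.D0H40.AR.Ph F) ↔ ZeroDominated F :=
    Pool.Agent.D0H40.SP.dom_iff hF.mero
  have hP : Pool.Agent.D0H40.SP.PDom (Pool.Agent.D0H40.AR.Ph F) ↔ PoleDominated F :=
    Pool.Agent.D0H40.SP.dom_iff (Q := fun x => x < 0) hF.mero
  have hpr := product_nat H h1
  set S := Pool.Agent.D0H40.SP.SS (Good L) α with hS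
  set t : ℝ := Pool.Agent.D0H40.SP.thr (2 * m) (c ^ 2) (-(indicator ρ * Real.log 2)) with ht
  have hT : Real.exp (t / 2) =
      (2 : ℝ) ^ (-(indicator ρ / 2)) * Real.exp (m * Real.eulerMascheroniConstant) / c := by
    rw [ht]
    unfold Pool.Agent.D0H40.SP.thr
    rw [Real.log_pow]
    have e : (-(indicator ρ * Real.log 2) - ((2 : ℕ) : ℝ) * Real.log c +
        ((2 * m : ℤ) : ℝ) * Real.eulerMascheroniConstant) / 2 =
        Real.log 2 * (-(indicator ρ / 2)) + m * Real.eulerMascheroniConstant - Real.log c := by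
      push_cast
      ring
    rw [e, Real.exp_sub, Real.exp_add, Real.exp_log hc0, ← Real.rpow_def_of_pos two_pos]
  have hcast : ((2 * m : ℤ) : ℝ) = 2 * (m : ℝ) := by push_cast; ring
  have hmeanof : (∀ w > 0, Pool.Agent.W263.BSD.LInt (fun u => 2 * S ⌊Real.exp u⌋₊) w) →
      HasMean (fun x => Real.log (partialProduct ρ fr x / Real.log x ^ (m : ℝ)))
        (Real.log (Real.exp (t / 2))) := by
    intro hconv
    have e : ∀ u ∈ Set.Ioi (1 : ℝ), ∀ w : ℝ, Real.log (partialProduct ρ fr (Real.exp u) /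
        Real.log (Real.exp u) ^ (m : ℝ)) * Real.exp (-(w * u)) =
        1 / 2 * ((2 * S ⌊Real.exp u⌋₊ - ((2 * m : ℤ) : ℝ) * Real.log u) * Real.exp (-(w * u))) := by
      intro u hu w
      have hu0 : (0 : ℝ) < u := lt_trans one_pos hu
      rw [product_eq H h1, Real.log_exp, Real.log_div (Real.exp_pos _).ne'
        (Real.rpow_pos_of_pos hu0 _).ne', Real.log_exp, Real.log_rpow hu0, hcast]
      ring
    refine ⟨fun w hw => ?_, ?_⟩
    · have h4 := (Pool.Agent.D0H40.SP.mean_int hconv (((2 * m : ℤ) : ℝ)) hw).const_mul (1 / 2)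
      exact IntegrableOn.congr_fun h4 (fun u hu => (e u hu w).symm) measurableSet_Ioi
    · rw [Real.log_exp]
      have h4 := (D.mean HL hconv).const_mul (1 / 2)
      have e2 : 1 / 2 * t = t / 2 := by ring
      rw [← ht, e2] at h4
      refine h4.congr fun w => ?_
      rw [setIntegral_congr_fun measurableSet_Ioi (fun u hu => e u hu w), integral_const_mul]
      ring
  have hquot : ∀ a : ℝ, quot ρ fr (logPow a) = fun n : ℕ => Real.exp (S n) / Real.log n ^ a := by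
    intro a
    rw [quot_eq H h1]
    rfl
  refine ⟨m, c, Real.exp (t / 2), hm, hc0, hc, hT, ?_, ?_, ?_, ?_, ?_, ?_, ?_, ?_, ?_, ?_, ?_⟩
  · intro g1 g2 g3 f hf A hA
    rw [lp_iff H h1]
    exact D.wild (fun h => g1 (hRH.1 h)) (fun h => g2 (hZ.1 h)) (fun h => g3 (hP.1 h)) (slow_iff.1 hf) hA
  · rintro θ hθ ⟨s, hs1, hs2⟩
    have hz : ∃ z : ℂ, θ < z.re ∧ meromorphicOrderAt (Pool.Agent.D0H40.AR.Ph F) z ≠ 0 := by
      refine ⟨s - 1 / 2, ?_, ?_⟩
      · rw [Complex.sub_re, Pool.Agent.D0H40.SP.half_re]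
        linarith
      · rw [Pool.Agent.D0H40.SP.od_half hF.mero (by linarith)]
        exact hs2
    have hreal : ∀ w : ℝ, θ < w → meromorphicOrderAt (Pool.Agent.D0H40.AR.Ph F) (w : ℂ) =
        ord F ((1 / 2 + w : ℝ) : ℂ) := by
      intro w hw
      have h4 := Pool.Agent.D0H40.SP.od_half hF.mero (s := ((1 / 2 + w : ℝ) : ℂ))
        (by rw [Complex.ofReal_re]; linarith)
      have e : (((1 / 2 + w : ℝ) : ℂ)) - 1 / 2 = (w : ℂ) := by
        push_cast
        ring
      rw [e] at h4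
      exact h4
    constructor
    · intro h4
      refine (D.large hθ hz fun w hw => ?_).mono fun n hn => ?_
      · rw [hreal w hw]
        exact h4 _ (by linarith)
      · rw [hpr]
        exact Real.exp_lt_exp.2 hn
    · intro h4
      refine (D.small hθ hz fun w hw => ?_).mono fun n hn => ?_
      · rw [hreal w hw]
        exact h4 _ (by linarith)
      · rw [hpr]
        exact Real.exp_lt_exp.2 hn
  · intro a
    constructor
    · intro g h
      obtain ⟨h4, h5⟩ := D.one_upper HL (ρ := a) (fun h => g (hP.1 h)) fun ε hε => by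
        filter_upwards [h ε hε] with n hn
        rw [← hpr]
        exact hn
      refine ⟨hRH.1 h4, ?_⟩
      rw [hcast] at h5
      linarith
    · intro g h
      obtain ⟨h4, h5⟩ := D.one_lower HL (ρ := a) (fun h => g (hZ.1 h)) fun ε hε => by
        filter_upwards [h ε hε] with n hn
        rw [← hpr]
        exact hn
      refine ⟨hRH.1 h4, ?_⟩
      rw [hcast] at h5
      linarith
  · intro a
    constructor
    · intro g h
      rw [hquot] at h
      obtain ⟨h4, h5⟩ := D.lim_zero HL (fun h => g (hP.1 h)) h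
      refine ⟨hRH.1 h4, ?_⟩
      rw [hcast] at h5
      linarith
    · intro g h
      rw [hquot] at h
      obtain ⟨h4, h5⟩ := D.lim_top HL (fun h => g (hZ.1 h)) h
      refine ⟨hRH.1 h4, ?_⟩
      rw [hcast] at h5
      linarith
  · intro a A hA h
    rw [hquot] at h
    obtain ⟨h4, h5, h6⟩ := D.lim_pos HL hA h
    exact ⟨hRH.1 h4, h5, h6⟩
  · intro g A hA
    rw [hquot]
    exact D.above HL (fun h => g (hP.1 h)) hA
  · intro g A hA
    rw [hquot]
    exact D.below HL (fun h => g (hZ.1 h)) hA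
  · intro g1 g2
    have h4 := D.limit_point HL (fun h => g1 (hZ.1 h)) (fun h => g2 (hP.1 h))
    refine ⟨(lp_iff H h1 _ _).2 h4, ?_⟩
    by_cases hn : Tendsto (quot ρ fr (logPow m)) atTop (𝓝 (Real.exp (t / 2)))
    · exact Or.inl hn
    · right
      have hsl := Pool.Agent.D0H40.PL.slow_log (m : ℝ)
      have hn' : ¬ Tendsto (fun n => Pool.Agent.D0H40.SP.qs S (fun n : ℕ => Real.log (n : ℝ) ^ (m : ℝ)) n)
          atTop (𝓝 (Real.exp (t / 2))) := by
        intro h
        apply hn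
        rw [quot_eq H h1]
        exact h
      obtain ⟨B, hB1, hB2, hB3⟩ := Pool.Agent.D0H40.SP.interval D.step hsl.pos hsl.ratio h4 hn'
      exact ⟨B, hB1, hB2, fun v hv => (lp_iff H h1 _ _).2 (hB3 v hv)⟩
  · intro g h
    have h4 : ∀ ε : ℝ, 0 < ε → ∀ᶠ n : ℕ in atTop, S n ≤ (n : ℝ) ^ ε := by
      intro ε hε
      filter_upwards [h ε hε] with n hn
      rw [hpr, Real.exp_le_exp] at hn
      exact hn
    have h5 := D.rh_le (fun h => g (hP.1 h)) h4
    exact ⟨hRH.1 h5, hmeanof (D.conv_le h5 h4)⟩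
  · intro g h
    have h4 : ∀ ε : ℝ, 0 < ε → ∀ᶠ n : ℕ in atTop, -(n : ℝ) ^ ε ≤ S n := by
      intro ε hε
      filter_upwards [h ε hε] with n hn
      rw [hpr, Real.exp_le_exp] at hn
      exact hn
    have h5 := D.rh_ge (fun h => g (hZ.1 h)) h4
    exact ⟨hRH.1 h5, hmeanof (D.conv_ge h5 h4)⟩
  · intro f hf u v w huv hvw hu hw
    rw [lp_iff H h1] at hu hw ⊢
    exact Pool.Agent.D0H40.SP.LPs.between D.step hf.pos hf.ratio huv hvw hu hw

end Pool.Agent.Results.MP_3b6604_nt.PartialProductsAtCentre
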